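import Mathlib

/-!
# THEOREM R and THEOREM LS (MP_8923e7): definitions, literal form of THEOREM A

`gap n = p_(n+1) - p_n`. `GoodN`: every prime of the window `N + [0, h]` is `s` modulo `L` and lies in one of the
intervals `N + [al d * h, be d * h]`, and the weights `w d` of the intervals with exactly one prime have a sum `> 1`.
-/

namespace Pool.Agent.H82.LS

open Filter Finset

/-- the gap between the primes number `n` and `n + 1` (the prime number `0` is `2`) -/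
noncomputable def gap (n : ℕ) : ℕ := Nat.nth Nat.Prime (n + 1) - Nat.nth Nat.Prime n

/-- there is exactly one prime `N + y` with `al * h ≤ y ≤ be * h` -/
def OneIn (al be h : ℝ) (N : ℕ) : Prop :=
  ∃! y : ℕ, al * h ≤ (y : ℝ) ∧ (y : ℝ) ≤ be * h ∧ (N + y).Prime

open Classical in
/-- good windows of length `h` -/
def GoodN {m : ℕ} (L s : ℕ) (al be w : Fin m → ℝ) (h : ℝ) (N : ℕ) : Prop :=
  (∀ y : ℕ, (y : ℝ) ≤ h → (N + y).Prime →
    N + y ≡ s [MOD L] ∧ ∃ d, al d * h ≤ (y : ℝ) ∧ (y : ℝ) ≤ be d * h) ∧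
  1 < ∑ d, if OneIn (al d) (be d) h N then w d else 0

open Classical in
/-- THEOREM A: many good windows; `lam0` depends only on the weights and on `L`, `s` -/
def ThmA : Prop := ∀ (m : ℕ) (w : Fin m → ℝ), (∀ d, 0 ≤ w d) → 100 ≤ ∑ d, w d →
  ∀ L s : ℕ, 0 < L → Nat.Coprime s L →
  ∃ lam0 : ℝ, 0 < lam0 ∧ lam0 ≤ 1 ∧ ∀ al be : Fin m → ℝ, (∀ d, 0 < al d ∧ al d < be d ∧ be d < 1) →
    (∀ d d', d ≠ d' → be d < al d' ∨ be d' < al d) → ∀ lam : ℝ, 0 < lam → lam ≤ lam0 →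
      ∃ δ T : ℝ, 0 < δ ∧ 1 ≤ T ∧ ∀ᶠ x : ℝ in atTop,
        δ * x ≤ (((range (⌊T * x⌋₊ + 1)).filter
          (fun N : ℕ => GoodN L s al be w (lam * Real.log x) N)).card : ℝ)

/-- positive lower density -/
def LowerDensity (S : Set ℕ) : Prop :=
  ∃ c : ℝ, 0 < c ∧ ∀ᶠ M : ℕ in atTop, c * M ≤ ((S ∩ {n | n < M}).ncard : ℝ)

/-- positive upper density -/
def UpperDensity (S : Set ℕ) : Prop :=
  ∃ c : ℝ, 0 < c ∧ ∃ᶠ M : ℕ in atTop, c * M ≤ ((S ∩ {n | n < M}).ncard : ℝ)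

/-- the quotient of the gaps number `n + 1` and `n` is within `e` of `t`, the gap number `n` is less than
`e log p_n`, and the three primes are `s` modulo `L` -/
def RatioSet (L s : ℕ) (t e : ℝ) : Set ℕ :=
  {n | |(gap (n + 1) : ℝ) / gap n - t| < e ∧
    (gap n : ℝ) < e * Real.log (Nat.nth Nat.Prime n) ∧
    ∀ j ≤ 2, Nat.nth Nat.Prime (n + j) ≡ s [MOD L]}

/-- the gaps number `n` and `n + 1` divided by `log p_n` are within `e` of `a` and `b`, and the three primes are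
`s` modulo `L` -/
def PairSet (L s : ℕ) (a b e : ℝ) : Set ℕ :=
  {n | |(gap n : ℝ) - a * Real.log (Nat.nth Nat.Prime n)| < e * Real.log (Nat.nth Nat.Prime n) ∧
    |(gap (n + 1) : ℝ) - b * Real.log (Nat.nth Nat.Prime n)| <
      e * Real.log (Nat.nth Nat.Prime n) ∧
    ∀ j ≤ 2, Nat.nth Nat.Prime (n + j) ≡ s [MOD L]}

open Classical in
/-- the windows of length `lam log x` at `N ≤ T x` which contain `p_n, p_(n+1), p_(n+2)` for some `n ∈ S` -/
noncomputable def Wins (S : Set ℕ) (lam T x : ℝ) : Finset ℕ :=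
  (range (⌊T * x⌋₊ + 1)).filter (fun N : ℕ => ∃ n ∈ S, N ≤ Nat.nth Nat.Prime n ∧
    (Nat.nth Nat.Prime (n + 2) : ℝ) ≤ N + lam * Real.log x)

end Pool.Agent.H82.LS
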