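import Pool.Agent.H82.LS.Fin

/-!
# THEOREM V from THEOREM A: the support of every limit law contains a neighbourhood of the origin

For every infinite set `A` of natural numbers there is `η > 0` such that for all `a, b` in `[0, η]` and `e > 0` the pairs
`(gap n, gap (n + 1)) / log p_n` are within `e` of `(a, b)` for at least `δ M` of the `n < M`, for infinitely many
`M` in `A`. `A = ℕ` is THEOREM LS; THEOREM R follows too.
-/

set_option autoImplicit false

namespace Pool.Agent.H82.LS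

open Filter Finset

/-- positive upper density along `A` -/
def PosAlong (A : Set ℕ) (P : ℕ → Prop) : Prop :=
  ∃ c : ℝ, 0 < c ∧ {M : ℕ | M ∈ A ∧ c * M ≤ ({n : ℕ | n < M ∧ P n}.ncard : ℝ)}.Infinite

/-- a finite union of positive lower density -/
theorem union_along {ι : Type} (A : Set ℕ) (hA : A.Infinite) (S : Finset ι) (P : ι → ℕ → Prop)
    (h : Pool.Agent.H19.LS.PosLower (fun n => ∃ i ∈ S, P i n)) :
    ∃ i ∈ S, PosAlong A (P i) := by
  classical
  by_contra hcon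
  push Not at hcon
  obtain ⟨c, hc, h⟩ := h
  have hk : (0 : ℝ) < S.card + 1 := by positivity
  have h1 : ∀ i ∈ S, ∀ᶠ M : ℕ in atTop, M ∈ A →
      (({n : ℕ | n < M ∧ P i n}).ncard : ℝ) < c / (S.card + 1) * M := by
    intro i hi
    have h2 := hcon i hi
    unfold PosAlong at h2
    push Not at h2
    have h3 := h2 (c / (S.card + 1)) (by positivity)
    obtain ⟨B, hB⟩ := h3.bddAbove
    filter_upwards [eventually_gt_atTop B] with M hM hMA
    by_contra h4
    exact absurd (hB ⟨hMA, not_lt.1 h4⟩) (not_le.2 hM)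
  have h2 := (eventually_all_finset S).2 h1
  have hfr : ∃ᶠ M : ℕ in atTop, M ∈ A := Nat.frequently_atTop_iff_infinite.2 hA
  obtain ⟨M, hMA, hM1, hM2, hM3⟩ :=
    (hfr.and_eventually (h.and (h2.and (eventually_gt_atTop 0)))).exists
  have hfin : ∀ i, ({n : ℕ | n < M ∧ P i n}).Finite := fun i =>
    (Set.finite_lt_nat M).subset fun n hn => hn.1
  have h3 : ({n : ℕ | n < M ∧ ∃ i ∈ S, P i n}).ncard ≤
      ∑ i ∈ S, ({n : ℕ | n < M ∧ P i n}).ncard := by
    have e1 : {n : ℕ | n < M ∧ ∃ i ∈ S, P i n} =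
        ((S.biUnion fun i => (hfin i).toFinset : Finset ℕ) : Set ℕ) := by
      ext n
      simp only [Set.mem_ofPred_eq, coe_biUnion, Set.mem_iUnion, Set.Finite.coe_toFinset,
        Finset.mem_coe, exists_prop]
      constructor
      · rintro ⟨h1, i, h2, h3⟩
        exact ⟨i, h2, h1, h3⟩
      · rintro ⟨i, h2, h1, h3⟩
        exact ⟨h1, i, h2, h3⟩
    rw [e1, Set.ncard_coe_finset]
    refine card_biUnion_le.trans (le_of_eq (Finset.sum_congr rfl fun i _ => ?_))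
    rw [Set.ncard_eq_toFinset_card _ (hfin i)]
  have h4 : (({n : ℕ | n < M ∧ ∃ i ∈ S, P i n}).ncard : ℝ) ≤
      ∑ i ∈ S, (({n : ℕ | n < M ∧ P i n}).ncard : ℝ) := by exact_mod_cast h3
  have h5 : ∑ i ∈ S, (({n : ℕ | n < M ∧ P i n}).ncard : ℝ) ≤
      ∑ i ∈ S, c / (S.card + 1) * M := Finset.sum_le_sum fun i hi => (hM2 i hi hMA).le
  rw [Finset.sum_const, nsmul_eq_mul] at h5
  have hM0 : (0 : ℝ) < M := by exact_mod_cast hM3
  have h6 : (S.card : ℝ) * (c / (S.card + 1) * M) = c * M - c / (S.card + 1) * M := by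
    field_simp
    ring
  have h7 : 0 < c / (S.card + 1) * M := by positivity
  linarith

theorem thmV (hA : ThmA) (L s : ℕ) (hL : 0 < L) (hs : Nat.Coprime s L) (A : Set ℕ)
    (hinf : A.Infinite) : ∃ c : ℝ, 0 < c ∧ ∀ a b : ℝ, 0 ≤ a → a ≤ c → 0 ≤ b → b ≤ c →
    ∀ e : ℝ, 0 < e → PosAlong A (fun n =>
      |(gap n : ℝ) - a * Real.log (Nat.nth Nat.Prime n)| < e * Real.log (Nat.nth Nat.Prime n) ∧
      |(gap (n + 1) : ℝ) - b * Real.log (Nat.nth Nat.Prime n)| <
        e * Real.log (Nat.nth Nat.Prime n) ∧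
      ∀ j ≤ 2, Nat.nth Nat.Prime (n + j) ≡ s [MOD L]) := by
  classical
  show ∃ c : ℝ, 0 < c ∧ ∀ a b : ℝ, 0 ≤ a → a ≤ c → 0 ≤ b → b ≤ c →
    ∀ e : ℝ, 0 < e → PosAlong A (fun n => n ∈ PairSet L s a b e)
  by_contra hcon
  push Not at hcon
  obtain ⟨m, f, hm⟩ := hundred
  obtain ⟨lam, hlam, h1, hA⟩ := hA m (fun k => wt 200 (f k)) (fun k => wt_nonneg _ _) hm L s hL hs
  have hbad : ∀ c : ℝ, 0 < c → ∃ a b ε : ℝ, 0 ≤ a ∧ a ≤ c ∧ 0 ≤ b ∧ b ≤ c ∧ 0 < ε ∧
      ¬ PosAlong A (fun n => n ∈ PairSet L s (lam * a) (lam * b) (2 * lam * ε)) := by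
    intro c hc
    obtain ⟨a, b, ha, hac, hb, hbc, e, he, h⟩ := hcon (lam * c) (mul_pos hlam hc)
    refine ⟨a / lam, b / lam, e / (2 * lam), by positivity, ?_, by positivity, ?_, by positivity,
      ?_⟩
    · rw [div_le_iff₀ hlam]
      linarith
    · rw [div_le_iff₀ hlam]
      linarith
    · have h1 : lam * (a / lam) = a := by field_simp
      have h2 : lam * (b / lam) = b := by field_simp
      have h3 : 2 * lam * (e / (2 * lam)) = e := by field_simp
      rw [h1, h2, h3]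
      exact h
  obtain ⟨lo, hi, S, hS, htree⟩ := tree_bad _ hbad 200 1 one_pos
  have htree' := htree.reindex f
  obtain ⟨δ, T, hδ, hT, hx⟩ := hA (fun k => lo (f k)) (fun k => hi (f k)) htree'.1 htree'.2.1
    lam hlam le_rfl
  have hL : Pool.Agent.H19.LS.PosLower (fun n => ∃ p ∈ S,
      n ∈ PairSet L s (lam * p.1) (lam * p.2.1) (2 * lam * p.2.2)) := by
    refine wins_of_good L s _ _ _ _ htree' lam δ T hlam hδ hT hx _ ?_
    have hsc : ∀ᶠ x : ℝ in atTop, ∀ p ∈ S, ∀ n : ℕ, δ / 2 * x ≤ Nat.nth Nat.Prime n →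
        (Nat.nth Nat.Prime n : ℝ) ≤ T * x + lam * Real.log x →
        |(gap n : ℝ) / (lam * Real.log x) - p.1| < p.2.2 →
        |(gap (n + 1) : ℝ) / (lam * Real.log x) - p.2.1| < p.2.2 →
        (∀ j ≤ 2, Nat.nth Nat.Prime (n + j) ≡ s [MOD L]) →
        n ∈ PairSet L s (lam * p.1) (lam * p.2.1) (2 * lam * p.2.2) :=
      (eventually_all_finset S).2 fun p hp =>
        scale_pair L s lam p.1 p.2.1 p.2.2 (δ / 2) T hlam (hS p hp).1 (hS p hp).2.1
          (hS p hp).2.2.1 (by positivity) hT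
    filter_upwards [hsc] with x hsc n h2 h3 _ h5 h6
    obtain ⟨p, hp, h7, h8⟩ := h5
    exact ⟨p, hp, hsc p hp n h2 h3 h7 h8 h6⟩
  obtain ⟨p, hp, hU⟩ := union_along A hinf S _ hL
  exact (hS p hp).2.2.2 hU

end Pool.Agent.H82.LS
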