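import Pool.Agent.H82.LS.Tr
import Pool.Agent.H19.LS.Cnt

/-!
# THEOREM R and THEOREM LS from THEOREM A

`good_con`: let `N` be good for a tree; `P` = the set of the `y / h`, `y ≤ h`, `N + y` prime: `P` is in the cells,
the sum over the cells with exactly one element is `> 1`, so there are three consecutive elements with `Q`; they are
`(p_n - N) / h, (p_(n+1) - N) / h, (p_(n+2) - N) / h`.
-/

set_option autoImplicit false

namespace Pool.Agent.H82.LS

open Filter Finset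

theorem nth_succ_of_gap {p q : ℕ} (_hp : p.Prime) (hq : q.Prime) (hpq : p < q)
    (h : ∀ r : ℕ, r.Prime → p < r → q ≤ r) (n : ℕ) (hn : Nat.nth Nat.Prime n = p) :
    Nat.nth Nat.Prime (n + 1) = q := by
  have hmono := Nat.nth_strictMono Nat.infinite_setOfPred_prime
  apply le_antisymm
  · have h1 : Nat.nth Nat.Prime (Nat.count Nat.Prime q) = q := Nat.nth_count hq
    have h2 : n < Nat.count Nat.Prime q := by
      rw [← hmono.lt_iff_lt, h1, hn]
      exact hpq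
    rw [← h1]
    exact hmono.monotone h2
  · refine h _ (Nat.prime_nth_prime _) ?_
    rw [← hn]
    exact hmono (Nat.lt_succ_self n)

theorem good_con {m : ℕ} (L s : ℕ) (al be w : Fin m → ℝ) (Q : ℝ → ℝ → Prop)
    (htree : IsTree al be w 1 Q) (h : ℝ) (hh : 0 < h) (N : ℕ) (hN : GoodN L s al be w h N) :
    ∃ n : ℕ, N ≤ Nat.nth Nat.Prime n ∧ (Nat.nth Nat.Prime (n + 2) : ℝ) ≤ N + h ∧
      Q ((gap n : ℝ) / h) ((gap (n + 1) : ℝ) / h) ∧
      ∀ j ≤ 2, Nat.nth Nat.Prime (n + j) ≡ s [MOD L] := by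
  classical
  obtain ⟨hN1, hN2⟩ := hN
  obtain ⟨t1, t2, t3, t4⟩ := htree
  obtain ⟨P, hP⟩ : ∃ P : Finset ℝ, P = ((range (⌊h⌋₊ + 1)).filter
      (fun y => (N + y).Prime)).image (fun y : ℕ => (y : ℝ) / h) := ⟨_, rfl⟩
  have mP : ∀ z, z ∈ P ↔ ∃ y : ℕ, (y : ℝ) ≤ h ∧ (N + y).Prime ∧ (y : ℝ) / h = z := by
    intro z
    rw [hP, mem_image]
    constructor
    · rintro ⟨y, hy, hz⟩
      rw [mem_filter, mem_range, Nat.lt_succ_iff] at hy
      exact ⟨y, (Nat.le_floor_iff hh.le).1 hy.1, hy.2, hz⟩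
    · rintro ⟨y, hy, hy2, hz⟩
      refine ⟨y, ?_, hz⟩
      rw [mem_filter, mem_range, Nat.lt_succ_iff]
      exact ⟨(Nat.le_floor_iff hh.le).2 hy, hy2⟩
  have hcells : ∀ z ∈ P, ∃ j, al j ≤ z ∧ z ≤ be j := by
    intro z hz
    obtain ⟨y, hy, hpr, rfl⟩ := (mP z).1 hz
    obtain ⟨_, d, hd1, hd2⟩ := hN1 y hy hpr
    exact ⟨d, (le_div_iff₀ hh).2 hd1, (div_le_iff₀ hh).2 hd2⟩
  have hone : ∀ d, OneIn (al d) (be d) h N → OneR P (al d) (be d) := by
    intro d hd
    obtain ⟨y, ⟨hy1, hy2, hpr⟩, huniq⟩ := hd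
    have hyh : (y : ℝ) ≤ h := by
      have := (t1 d).2.2
      nlinarith
    refine ⟨(y : ℝ) / h, (mP _).2 ⟨y, hyh, hpr, rfl⟩, ⟨(le_div_iff₀ hh).2 hy1,
      (div_le_iff₀ hh).2 hy2⟩, ?_⟩
    intro z hz hz1 hz2
    obtain ⟨y', hy', hpr', rfl⟩ := (mP z).1 hz
    rw [huniq y' ⟨(le_div_iff₀ hh).1 hz1, (div_le_iff₀ hh).1 hz2, hpr'⟩]
  have hsum : 1 < ∑ j, (if OneR P (al j) (be j) then w j else 0) := by
    refine hN2.trans_le (Finset.sum_le_sum fun d _ => ?_)
    by_cases hd : OneIn (al d) (be d) h N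
    · rw [if_pos hd, if_pos (hone d hd)]
    · rw [if_neg hd]
      split_ifs
      · exact t3 d
      · exact le_rfl
  rcases t4 P hcells with h5 | ⟨y₁, y₂, y₃, ⟨k1, k2, k3, k4, k5, k6⟩, hq⟩
  · exfalso
    have : (if P.Nonempty then (1 : ℝ) else 0) ≤ 1 := by split_ifs <;> norm_num
    linarith
  obtain ⟨a, ha1, ha2, ha3⟩ := (mP _).1 k1
  obtain ⟨b, hb1, hb2, hb3⟩ := (mP _).1 k2
  obtain ⟨c, hc1, hc2, hc3⟩ := (mP _).1 k3
  have hab : a < b := by
    rw [← ha3, ← hb3, div_lt_div_iff_of_pos_right hh] at k4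
    exact_mod_cast k4
  have hbc : b < c := by
    rw [← hb3, ← hc3, div_lt_div_iff_of_pos_right hh] at k5
    exact_mod_cast k5
  have key : ∀ r : ℕ, r.Prime → N + a < r → r < N + c → r = N + b := by
    intro r hr h1 h2
    obtain ⟨y, rfl⟩ : ∃ y, r = N + y := ⟨r - N, by omega⟩
    have hac : a < y := by omega
    have hyc : y < c := by omega
    have hyh : (y : ℝ) ≤ h := le_trans (by exact_mod_cast hyc.le) hc1
    rcases k6 _ ((mP _).2 ⟨y, hyh, hr, rfl⟩) with h3 | h3 | h3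
    · exfalso
      rw [← ha3, div_le_div_iff_of_pos_right hh] at h3
      have : y ≤ a := by exact_mod_cast h3
      omega
    · rw [← hb3, div_left_inj' hh.ne'] at h3
      have : y = b := by exact_mod_cast h3
      rw [this]
    · exfalso
      rw [← hc3, div_le_div_iff_of_pos_right hh] at h3
      have : c ≤ y := by exact_mod_cast h3
      omega
  obtain ⟨n, hn⟩ : ∃ n, Nat.nth Nat.Prime n = N + a := ⟨_, Nat.nth_count ha2⟩
  have hn1 : Nat.nth Nat.Prime (n + 1) = N + b := by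
    refine nth_succ_of_gap ha2 hb2 (by omega) (fun r hr h1 => ?_) n hn
    by_contra h2
    have := key r hr h1 (by omega)
    omega
  have hn2 : Nat.nth Nat.Prime (n + 2) = N + c := by
    refine nth_succ_of_gap hb2 hc2 (by omega) (fun r hr h1 => ?_) (n + 1) hn1
    by_contra h2
    have := key r hr (by omega) (by omega)
    omega
  have hg1 : gap n = b - a := by
    unfold gap
    rw [hn, hn1]
    omega
  have hg2 : gap (n + 1) = c - b := by
    unfold gap
    rw [show n + 1 + 1 = n + 2 by ring, hn1, hn2]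
    omega
  refine ⟨n, by rw [hn]; omega, ?_, ?_, ?_⟩
  · rw [hn2]
    push_cast
    linarith
  · rw [hg1, hg2, Nat.cast_sub hab.le, Nat.cast_sub hbc.le, sub_div, sub_div, ha3, hb3, hc3]
    exact hq
  · intro j hj
    interval_cases j
    · rw [add_zero, hn]
      exact (hN1 a ha1 ha2).1
    · rw [hn1]
      exact (hN1 b hb1 hb2).1
    · rw [hn2]
      exact (hN1 c hc1 hc2).1

/-- discard the small `N` -/
theorem half_card (G : ℕ → Prop) [DecidablePred G] (δ T x : ℝ) (hδ : 0 < δ) (hx : 4 ≤ δ * x)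
    (h : δ * x ≤ (((range (⌊T * x⌋₊ + 1)).filter G).card : ℝ)) :
    ∃ S : Finset ℕ, δ / 4 * x ≤ S.card ∧ ∀ N ∈ S, N ≤ ⌊T * x⌋₊ ∧ δ / 2 * x ≤ N ∧ G N := by
  classical
  refine ⟨((range (⌊T * x⌋₊ + 1)).filter G) \ range (⌈δ / 2 * x⌉₊), ?_, ?_⟩
  · have h1 := Finset.le_card_sdiff (range (⌈δ / 2 * x⌉₊)) ((range (⌊T * x⌋₊ + 1)).filter G)
    rw [card_range] at h1
    have h2 : (((range (⌊T * x⌋₊ + 1)).filter G).card : ℝ) - ⌈δ / 2 * x⌉₊ ≤
        ((((range (⌊T * x⌋₊ + 1)).filter G) \ range (⌈δ / 2 * x⌉₊)).card : ℝ) := by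
      rw [tsub_le_iff_right]
      have := (tsub_le_iff_right.1 h1)
      exact_mod_cast this
    have h3 : (⌈δ / 2 * x⌉₊ : ℝ) < δ / 2 * x + 1 := Nat.ceil_lt_add_one (by nlinarith)
    linarith
  · intro N hN
    rw [Finset.mem_sdiff, mem_filter, mem_range, mem_range, not_lt] at hN
    exact ⟨Nat.lt_succ_iff.1 hN.1.1, Nat.ceil_le.1 hN.2, hN.1.2⟩

/-- `log p` and `log x` -/
theorem log_near (κ T lam η : ℝ) (hκ : 0 < κ) (hT : 1 ≤ T) (hlam : 0 < lam) (hη : 0 < η) :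
    ∀ᶠ x : ℝ in atTop, ∀ p : ℝ, κ * x ≤ p → p ≤ T * x + lam * Real.log x →
      |Real.log p - Real.log x| ≤ η * Real.log x := by
  have h1 : ∀ᶠ x : ℝ in atTop, |Real.log κ| + Real.log (T + lam) ≤ η * Real.log x :=
    ((Real.tendsto_log_atTop.const_mul_atTop hη)).eventually_ge_atTop _
  filter_upwards [h1, eventually_ge_atTop (1 : ℝ)] with x hx hx1 p hp1 hp2
  have hx0 : 0 < x := by linarith
  have hp0 : 0 < p := lt_of_lt_of_le (by positivity) hp1
  have hlogx : Real.log x ≤ x := by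
    have := Real.log_le_sub_one_of_pos hx0
    linarith
  have hT0 : 0 ≤ Real.log (T + lam) := Real.log_nonneg (by linarith)
  rw [abs_le]
  constructor
  · have h2 : Real.log (κ * x) ≤ Real.log p := Real.log_le_log (by positivity) hp1
    rw [Real.log_mul hκ.ne' hx0.ne'] at h2
    have := neg_abs_le (Real.log κ)
    linarith
  · have h3 : p ≤ (T + lam) * x := by nlinarith
    have h2 : Real.log p ≤ Real.log ((T + lam) * x) := Real.log_le_log hp0 h3
    rw [Real.log_mul (by positivity) hx0.ne'] at h2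
    have := abs_nonneg (Real.log κ)
    linarith

/-- from windows with trees to primes -/
theorem wins_of_good {m : ℕ} (L s : ℕ) (al be w : Fin m → ℝ) (Q : ℝ → ℝ → Prop)
    (htree : IsTree al be w 1 Q) (lam δ T : ℝ) (hlam : 0 < lam) (hδ : 0 < δ) (hT : 1 ≤ T)
    [∀ x : ℝ, DecidablePred (fun N : ℕ => GoodN L s al be w (lam * Real.log x) N)]
    (h : ∀ᶠ x : ℝ in atTop, δ * x ≤ (((range (⌊T * x⌋₊ + 1)).filter
      (fun N : ℕ => GoodN L s al be w (lam * Real.log x) N)).card : ℝ))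
    (P : ℕ → Prop)
    (hP : ∀ᶠ x : ℝ in atTop, ∀ n : ℕ, δ / 2 * x ≤ Nat.nth Nat.Prime n →
      (Nat.nth Nat.Prime n : ℝ) ≤ T * x + lam * Real.log x →
      (gap n : ℝ) ≤ lam * Real.log x →
      Q ((gap n : ℝ) / (lam * Real.log x)) ((gap (n + 1) : ℝ) / (lam * Real.log x)) →
      (∀ j ≤ 2, Nat.nth Nat.Prime (n + j) ≡ s [MOD L]) → P n) :
    Pool.Agent.H19.LS.PosLower P := by
  refine Pool.Agent.H19.LS.lower_of_windows P T lam (δ / 4) hT hlam.le (by positivity) ?_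
  filter_upwards [h, hP, eventually_gt_atTop (1 : ℝ), eventually_ge_atTop (4 / δ)]
    with x hx hPx hx1 hx4
  have hx0 : 0 < x := by linarith
  obtain ⟨S, hS1, hS2⟩ := half_card _ δ T x hδ
    (by rw [div_le_iff₀ hδ] at hx4; linarith) hx
  have hℓ : 0 < lam * Real.log x := mul_pos hlam (Real.log_pos hx1)
  refine ⟨S, hS1, fun N hN => ?_⟩
  obtain ⟨h1, h2, h3⟩ := hS2 N hN
  have hN1 : (N : ℝ) ≤ T * x := (Nat.le_floor_iff (by positivity)).1 h1
  obtain ⟨n, h4, h5, h6, h7⟩ := good_con L s al be w Q htree _ hℓ N h3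
  have hmono := Nat.nth_strictMono Nat.infinite_setOfPred_prime
  have h8 : (Nat.nth Nat.Prime n : ℝ) ≤ Nat.nth Nat.Prime (n + 2) := by
    exact_mod_cast hmono.monotone (by omega)
  have h9 : (Nat.nth Nat.Prime (n + 1) : ℝ) ≤ Nat.nth Nat.Prime (n + 2) := by
    exact_mod_cast hmono.monotone (by omega)
  have h10 : (N : ℝ) ≤ Nat.nth Nat.Prime n := by exact_mod_cast h4
  refine ⟨hN1, n, hPx n (h2.trans h10) (by linarith) ?_ h6 h7, h4, by linarith⟩
  unfold gap
  rw [Nat.cast_sub (hmono.monotone (by omega))]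
  linarith

/-- the tree of height `200` with indices in `Fin m` -/
theorem hundred : ∃ (m : ℕ) (f : Fin m ≃ Nd 200), 100 ≤ ∑ k, wt 200 (f k) := by
  refine ⟨_, (Fintype.equivFin (Nd 200)).symm, ?_⟩
  rw [Equiv.sum_comp (Fintype.equivFin (Nd 200)).symm (wt 200), sum_wt]
  norm_num

theorem wt_nonneg (n : ℕ) (j : Nd n) : 0 ≤ wt n j := by
  induction n with
  | zero => exact Empty.elim j
  | succ n ih =>
    match j with
    | none => exact (by norm_num : (0 : ℝ) ≤ 1 / 2)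
    | some (i, j) => exact div_nonneg (ih j) (by norm_num)

theorem thmR (hA : ThmA) (L s : ℕ) (hL : 0 < L) (hs : Nat.Coprime s L) (t e : ℝ) (ht : 0 < t)
    (he : 0 < e) : Pool.Agent.H19.LS.PosLower (fun n => |(gap (n + 1) : ℝ) / gap n - t| < e ∧
      (gap n : ℝ) < e * Real.log (Nat.nth Nat.Prime n) ∧
      ∀ j ≤ 2, Nat.nth Nat.Prime (n + j) ≡ s [MOD L]) := by
  classical
  obtain ⟨m, f, hm⟩ := hundred
  obtain ⟨lam0, h0, h1, hA⟩ := hA m (fun k => wt 200 (f k)) (fun k => wt_nonneg _ _) hm L s hL hs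
  obtain ⟨lo, hi, htree⟩ := tree_ratio t e ht he 200
  have htree' := htree.reindex f
  obtain ⟨δ, T, hδ, hT, hx⟩ := hA (fun k => lo (f k)) (fun k => hi (f k)) htree'.1 htree'.2.1
    (min lam0 (e / 4)) (lt_min h0 (by positivity)) (min_le_left _ _)
  obtain ⟨lam, hlam⟩ : ∃ lam, lam = min lam0 (e / 4) := ⟨_, rfl⟩
  rw [← hlam] at hx
  have hlam0 : 0 < lam := hlam ▸ lt_min h0 (by positivity)
  have hlam1 : lam ≤ e / 4 := hlam ▸ min_le_right _ _
  refine wins_of_good L s _ _ _ _ htree' lam δ T hlam0 hδ hT hx _ ?_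
  filter_upwards [log_near (δ / 2) T lam (1 / 2) (by positivity) hT hlam0 (by norm_num),
    eventually_gt_atTop (1 : ℝ)] with x hx2 hx1 n h2 h3 h4 h5 h6
  have hlog : 0 < Real.log x := Real.log_pos hx1
  have hℓ : 0 < lam * Real.log x := mul_pos hlam0 hlog
  refine ⟨?_, ?_, h6⟩
  · rw [div_div_div_cancel_right₀ hℓ.ne'] at h5
    exact h5
  · have h7 := hx2 _ h2 h3
    rw [abs_le] at h7
    have h8 : Real.log x ≤ 2 * Real.log (Nat.nth Nat.Prime n) := by linarith [h7.1]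
    have h9 : lam * Real.log x ≤ e / 4 * Real.log x :=
      mul_le_mul_of_nonneg_right hlam1 hlog.le
    have h10 : e / 4 * Real.log x ≤ e / 4 * (2 * Real.log (Nat.nth Nat.Prime n)) :=
      mul_le_mul_of_nonneg_left h8 (by positivity)
    have h11 : 0 < e * Real.log (Nat.nth Nat.Prime n) := mul_pos he (by linarith)
    linarith

/-- from the window scale `lam log x` to `log p_n` -/
theorem scale_pair (L s : ℕ) (lam a b ε κ T : ℝ) (hlam : 0 < lam) (ha : 0 ≤ a) (hb : 0 ≤ b)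
    (hε : 0 < ε) (hκ : 0 < κ) (hT : 1 ≤ T) : ∀ᶠ x : ℝ in atTop, ∀ n : ℕ,
      κ * x ≤ Nat.nth Nat.Prime n → (Nat.nth Nat.Prime n : ℝ) ≤ T * x + lam * Real.log x →
      |(gap n : ℝ) / (lam * Real.log x) - a| < ε →
      |(gap (n + 1) : ℝ) / (lam * Real.log x) - b| < ε →
      (∀ j ≤ 2, Nat.nth Nat.Prime (n + j) ≡ s [MOD L]) →
      n ∈ PairSet L s (lam * a) (lam * b) (2 * lam * ε) := by
  obtain ⟨η, hηd⟩ : ∃ η, η = min (1 / 4) (ε / (4 * (a + b + 1))) := ⟨_, rfl⟩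
  have hη : 0 < η := hηd ▸ lt_min (by norm_num) (by positivity)
  have hη1 : η ≤ 1 / 4 := hηd ▸ min_le_left _ _
  have hη2 : η * (4 * (a + b + 1)) ≤ ε := by
    have : η ≤ ε / (4 * (a + b + 1)) := hηd ▸ min_le_right _ _
    rwa [le_div_iff₀ (by positivity)] at this
  filter_upwards [log_near κ T lam η hκ hT hlam hη, eventually_gt_atTop (1 : ℝ)]
    with x hx hx1 n h1 h2 h3 h4 h5
  have hlog : 0 < Real.log x := Real.log_pos hx1
  have hℓ : 0 < lam * Real.log x := mul_pos hlam hlog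
  have h6 := hx _ h1 h2
  obtain ⟨l, hl⟩ : ∃ l, l = Real.log (Nat.nth Nat.Prime n) := ⟨_, rfl⟩
  obtain ⟨X, hX⟩ : ∃ X, X = Real.log x := ⟨_, rfl⟩
  rw [← hl, ← hX] at h6
  rw [← hX] at h3 h4 hℓ hlog
  have hXl : X * (3 / 4) ≤ l := by
    rw [abs_le] at h6
    nlinarith [h6.1]
  have main : ∀ g c : ℝ, 0 ≤ c → c ≤ a + b → |g / (lam * X) - c| < ε →
      |g - lam * c * l| < 2 * lam * ε * l := by
    intro g c hc hcab hg
    have e1 : g = lam * X * (g / (lam * X)) := by field_simp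
    have e2 : |g - lam * X * c| < lam * X * ε := by
      have e3 : g - lam * X * c = lam * X * (g / (lam * X) - c) := by
        rw [mul_sub, ← e1]
      rw [e3, abs_mul, abs_of_pos hℓ]
      exact mul_lt_mul_of_pos_left hg hℓ
    have e4 : |lam * X * c - lam * c * l| ≤ lam * c * (η * X) := by
      rw [show lam * X * c - lam * c * l = -(lam * c * (l - X)) by ring, abs_neg, abs_mul,
        abs_of_nonneg (by positivity : 0 ≤ lam * c)]
      exact mul_le_mul_of_nonneg_left h6 (by positivity)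
    have e5 : lam * c * (η * X) ≤ lam * X * (ε / 4) := by
      have : c * η ≤ ε / 4 := by nlinarith
      calc lam * c * (η * X) = lam * X * (c * η) := by ring
        _ ≤ lam * X * (ε / 4) := mul_le_mul_of_nonneg_left this hℓ.le
    have e6 : lam * ε * (X * (3 / 4)) ≤ lam * ε * l :=
      mul_le_mul_of_nonneg_left hXl (by positivity)
    have e7 : 0 < lam * X * ε := by positivity
    calc |g - lam * c * l| = |(g - lam * X * c) + (lam * X * c - lam * c * l)| := by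
          congr 1; ring
      _ ≤ |g - lam * X * c| + |lam * X * c - lam * c * l| := abs_add_le _ _
      _ < 2 * lam * ε * l := by nlinarith
  refine ⟨?_, ?_, h5⟩
  · rw [← hl]
    exact main _ a ha (by linarith) h3
  · rw [← hl]
    exact main _ b hb (by linarith) h4

/-- a finite union of positive lower density -/
theorem union_density {ι : Type} (S : Finset ι) (P : ι → ℕ → Prop)
    (h : Pool.Agent.H19.LS.PosLower (fun n => ∃ i ∈ S, P i n)) :
    ∃ i ∈ S, Pool.Agent.H19.LS.PosUpper (P i) := by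
  classical
  by_contra hcon
  push Not at hcon
  obtain ⟨c, hc, h⟩ := h
  have hk : (0 : ℝ) < S.card + 1 := by positivity
  have h1 : ∀ i ∈ S, ∀ᶠ M : ℕ in atTop,
      (({n : ℕ | n < M ∧ P i n}).ncard : ℝ) < c / (S.card + 1) * M := by
    intro i hi
    have h2 := hcon i hi
    unfold Pool.Agent.H19.LS.PosUpper at h2
    push Not at h2
    exact h2 (c / (S.card + 1)) (by positivity)
  have h2 := (eventually_all_finset S).2 h1
  obtain ⟨M, hM1, hM2, hM3⟩ := (h.and (h2.and (eventually_gt_atTop 0))).exists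
  have hfin : ∀ i, ({n : ℕ | n < M ∧ P i n}).Finite := fun i =>
    (Set.finite_lt_nat M).subset fun n hn => hn.1
  have h3 : ({n : ℕ | n < M ∧ ∃ i ∈ S, P i n}).ncard ≤
      ∑ i ∈ S, ({n : ℕ | n < M ∧ P i n}).ncard := by
    have e1 : {n : ℕ | n < M ∧ ∃ i ∈ S, P i n} =
        ((S.biUnion fun i => (hfin i).toFinset : Finset ℕ) : Set ℕ) := by
      ext n
      simp only [Set.mem_ofPred_eq, coe_biUnion, Set.mem_iUnion, Set.Finite.coe_toFinset,
        Finset.mem_coe, exists_prop]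
      constructor
      · rintro ⟨h1, i, h2, h3⟩
        exact ⟨i, h2, h1, h3⟩
      · rintro ⟨i, h2, h1, h3⟩
        exact ⟨h1, i, h2, h3⟩
    rw [e1, Set.ncard_coe_finset]
    refine card_biUnion_le.trans (le_of_eq (Finset.sum_congr rfl fun i _ => ?_))
    rw [Set.ncard_eq_toFinset_card _ (hfin i)]
  have h4 : (({n : ℕ | n < M ∧ ∃ i ∈ S, P i n}).ncard : ℝ) ≤
      ∑ i ∈ S, (({n : ℕ | n < M ∧ P i n}).ncard : ℝ) := by exact_mod_cast h3
  have h5 : ∑ i ∈ S, (({n : ℕ | n < M ∧ P i n}).ncard : ℝ) ≤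
      ∑ i ∈ S, c / (S.card + 1) * M := Finset.sum_le_sum fun i hi => (hM2 i hi).le
  rw [Finset.sum_const, nsmul_eq_mul] at h5
  have hM0 : (0 : ℝ) < M := by exact_mod_cast hM3
  have h6 : (S.card : ℝ) * (c / (S.card + 1) * M) = c * M - c / (S.card + 1) * M := by
    field_simp
    ring
  have h7 : 0 < c / (S.card + 1) * M := by positivity
  linarith

theorem thmLS (hA : ThmA) (L s : ℕ) (hL : 0 < L) (hs : Nat.Coprime s L) :
    ∃ c : ℝ, 0 < c ∧ ∀ a b : ℝ, 0 ≤ a → a ≤ c → 0 ≤ b → b ≤ c →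
    ∀ e : ℝ, 0 < e → Pool.Agent.H19.LS.PosUpper (fun n => n ∈ PairSet L s a b e) := by
  classical
  by_contra hcon
  push Not at hcon
  obtain ⟨m, f, hm⟩ := hundred
  obtain ⟨lam, hlam, h1, hA⟩ := hA m (fun k => wt 200 (f k)) (fun k => wt_nonneg _ _) hm L s hL hs
  have hbad : ∀ c : ℝ, 0 < c → ∃ a b ε : ℝ, 0 ≤ a ∧ a ≤ c ∧ 0 ≤ b ∧ b ≤ c ∧ 0 < ε ∧
      ¬ Pool.Agent.H19.LS.PosUpper (fun n => n ∈ PairSet L s (lam * a) (lam * b) (2 * lam * ε)) := by
    intro c hc
    obtain ⟨a, b, ha, hac, hb, hbc, e, he, h⟩ := hcon (lam * c) (mul_pos hlam hc)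
    refine ⟨a / lam, b / lam, e / (2 * lam), by positivity, ?_, by positivity, ?_, by positivity,
      ?_⟩
    · rw [div_le_iff₀ hlam]
      linarith
    · rw [div_le_iff₀ hlam]
      linarith
    · have h1 : lam * (a / lam) = a := by field_simp
      have h2 : lam * (b / lam) = b := by field_simp
      have h3 : 2 * lam * (e / (2 * lam)) = e := by field_simp
      rw [h1, h2, h3]
      exact h
  obtain ⟨lo, hi, S, hS, htree⟩ := tree_bad _ hbad 200 1 one_pos
  have htree' := htree.reindex f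
  obtain ⟨δ, T, hδ, hT, hx⟩ := hA (fun k => lo (f k)) (fun k => hi (f k)) htree'.1 htree'.2.1
    lam hlam le_rfl
  have hL : Pool.Agent.H19.LS.PosLower (fun n => ∃ p ∈ S,
      n ∈ PairSet L s (lam * p.1) (lam * p.2.1) (2 * lam * p.2.2)) := by
    refine wins_of_good L s _ _ _ _ htree' lam δ T hlam hδ hT hx _ ?_
    have hsc : ∀ᶠ x : ℝ in atTop, ∀ p ∈ S, ∀ n : ℕ, δ / 2 * x ≤ Nat.nth Nat.Prime n →
        (Nat.nth Nat.Prime n : ℝ) ≤ T * x + lam * Real.log x →
        |(gap n : ℝ) / (lam * Real.log x) - p.1| < p.2.2 →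
        |(gap (n + 1) : ℝ) / (lam * Real.log x) - p.2.1| < p.2.2 →
        (∀ j ≤ 2, Nat.nth Nat.Prime (n + j) ≡ s [MOD L]) →
        n ∈ PairSet L s (lam * p.1) (lam * p.2.1) (2 * lam * p.2.2) :=
      (eventually_all_finset S).2 fun p hp =>
        scale_pair L s lam p.1 p.2.1 p.2.2 (δ / 2) T hlam (hS p hp).1 (hS p hp).2.1
          (hS p hp).2.2.1 (by positivity) hT
    filter_upwards [hsc] with x hsc n h2 h3 _ h5 h6
    obtain ⟨p, hp, h7, h8⟩ := h5
    exact ⟨p, hp, hsc p hp n h2 h3 h7 h8 h6⟩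
  obtain ⟨p, hp, hU⟩ := union_density S _ hL
  exact (hS p hp).2.2.2 hU

end Pool.Agent.H82.LS
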