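import Pool.Agent.H82.LS.Df

/-!
# THEOREM R / LS: the deterministic tree lemma

A family of cells (disjoint closed intervals in `(0, c)`) with weights is a tree for `Q` if every finite set `P` of
reals contained in the cells satisfies `∑ ω_j [exactly one element in cell j] ≤ [P nonempty]`, or has three consecutive
elements `y₁ < y₂ < y₃` with `Q (y₂ - y₁) (y₃ - y₂)`.
`join`: cells `Option (Fin 2 × ι)`: root `[u, u + η]` of weight `1/2`, a copy of the tree at `0` and one at `u + v`,
weights halved. Proof. Let `A`, `R`, `B` be the parts of `P` in the left copy, the root, the right copy (`A < R < B`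
elementwise since `η < u`, `η < v`). Consecutive elements of `A` (or of `B` shifted) are consecutive in `P`.
Otherwise the sum is `≤ 1/2 ([one in root] + [A nonempty] + [B nonempty])`; if all three are `1` take `max A`, the
element of the root, `min B`: consecutive, differences within `η` of `u`, `v`. If not, the sum is `≤ 1` (and `0` if
`P` is empty).
-/

set_option autoImplicit false

namespace Pool.Agent.H82.LS

open Filter Finset

/-- three consecutive elements -/
def Con3 (P : Finset ℝ) (y₁ y₂ y₃ : ℝ) : Prop :=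
  y₁ ∈ P ∧ y₂ ∈ P ∧ y₃ ∈ P ∧ y₁ < y₂ ∧ y₂ < y₃ ∧ ∀ y ∈ P, y ≤ y₁ ∨ y = y₂ ∨ y₃ ≤ y

/-- exactly one element of `P` is in `[a, b]` -/
def OneR (P : Finset ℝ) (a b : ℝ) : Prop :=
  ∃ y ∈ P, (a ≤ y ∧ y ≤ b) ∧ ∀ y' ∈ P, a ≤ y' → y' ≤ b → y' = y

open Classical in
/-- trees -/
def IsTree {ι : Type} [Fintype ι] (lo hi ω : ι → ℝ) (c : ℝ) (Q : ℝ → ℝ → Prop) : Prop :=
  (∀ j, 0 < lo j ∧ lo j < hi j ∧ hi j < c) ∧ (∀ i j, i ≠ j → hi i < lo j ∨ hi j < lo i) ∧
  (∀ j, 0 ≤ ω j) ∧
  ∀ P : Finset ℝ, (∀ y ∈ P, ∃ j, lo j ≤ y ∧ y ≤ hi j) →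
    (∑ j, (if OneR P (lo j) (hi j) then ω j else 0)) ≤ (if P.Nonempty then (1 : ℝ) else 0) ∨
      ∃ y₁ y₂ y₃, Con3 P y₁ y₂ y₃ ∧ Q (y₂ - y₁) (y₃ - y₂)

/-- the cells of the joined tree -/
noncomputable def jlo {ι : Type} (lo : ι → ℝ) (u v : ℝ) : Option (Fin 2 × ι) → ℝ
  | none => u
  | some (i, j) => lo j + (if i = 0 then 0 else u + v)

noncomputable def jhi {ι : Type} (hi : ι → ℝ) (u v η : ℝ) : Option (Fin 2 × ι) → ℝ
  | none => u + η
  | some (i, j) => hi j + (if i = 0 then 0 else u + v)

noncomputable def jw {ι : Type} (ω : ι → ℝ) : Option (Fin 2 × ι) → ℝ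
  | none => 1 / 2
  | some (_, j) => ω j / 2

theorem oneR_congr {P P' : Finset ℝ} {a b : ℝ} (h : ∀ y, a ≤ y → y ≤ b → (y ∈ P ↔ y ∈ P')) :
    OneR P a b ↔ OneR P' a b := by
  constructor
  · rintro ⟨y, hy, hab, h1⟩
    exact ⟨y, (h y hab.1 hab.2).1 hy, hab, fun y' hy' h2 h3 => h1 y' ((h y' h2 h3).2 hy') h2 h3⟩
  · rintro ⟨y, hy, hab, h1⟩
    exact ⟨y, (h y hab.1 hab.2).2 hy, hab, fun y' hy' h2 h3 => h1 y' ((h y' h2 h3).1 hy') h2 h3⟩

theorem oneR_shift {P : Finset ℝ} {a b c : ℝ} :
    OneR (P.image (fun y => y - c)) a b ↔ OneR P (a + c) (b + c) := by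
  constructor
  · rintro ⟨y, hy, hab, h1⟩
    obtain ⟨z, hz, rfl⟩ := Finset.mem_image.1 hy
    refine ⟨z, hz, ⟨by linarith [hab.1], by linarith [hab.2]⟩, fun y' hy' h2 h3 => ?_⟩
    have := h1 (y' - c) (Finset.mem_image_of_mem _ hy') (by linarith) (by linarith)
    linarith
  · rintro ⟨y, hy, hab, h1⟩
    refine ⟨y - c, Finset.mem_image_of_mem _ hy, ⟨by linarith [hab.1], by linarith [hab.2]⟩,
      fun y' hy' h2 h3 => ?_⟩
    obtain ⟨z, hz, rfl⟩ := Finset.mem_image.1 hy'
    have := h1 z hz (by linarith) (by linarith)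
    linarith

theorem join {ι : Type} [Fintype ι] (lo hi ω : ι → ℝ) (η u v : ℝ) (Q Q' : ℝ → ℝ → Prop)
    (hη : 0 < η) (hu : η < u) (hv : η < v) (h : IsTree lo hi ω η Q)
    (hQ : ∀ s w, Q s w → Q' s w) (hQ' : ∀ s w, |s - u| ≤ η → |w - v| ≤ η → Q' s w) :
    IsTree (jlo lo u v) (jhi hi u v η) (jw ω) (u + v + η) Q' := by
  classical
  obtain ⟨h1, h2, h3, h4⟩ := h
  have e0 : ∀ j, jlo lo u v (some (0, j)) = lo j := fun j => by simp [jlo]
  have e1 : ∀ j, jlo lo u v (some (1, j)) = lo j + (u + v) := fun j => by simp [jlo]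
  have f0 : ∀ j, jhi hi u v η (some (0, j)) = hi j := fun j => by simp [jhi]
  have f1 : ∀ j, jhi hi u v η (some (1, j)) = hi j + (u + v) := fun j => by simp [jhi]
  have e2 : jlo lo u v none = u := rfl
  have f2 : jhi hi u v η none = u + η := rfl
  refine ⟨?_, ?_, ?_, ?_⟩
  · rintro (_ | ⟨i, j⟩)
    · rw [e2, f2]
      exact ⟨by linarith, by linarith, by linarith⟩
    · have := h1 j
      fin_cases i
      · show 0 < jlo lo u v (some (0, j)) ∧ jlo lo u v (some (0, j)) < jhi hi u v η (some (0, j)) ∧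
          jhi hi u v η (some (0, j)) < u + v + η
        rw [e0, f0]
        exact ⟨this.1, this.2.1, by linarith [this.2.2]⟩
      · show 0 < jlo lo u v (some (1, j)) ∧ jlo lo u v (some (1, j)) < jhi hi u v η (some (1, j)) ∧
          jhi hi u v η (some (1, j)) < u + v + η
        rw [e1, f1]
        exact ⟨by linarith [this.1], by linarith [this.2.1], by linarith [this.2.2]⟩
  · rintro (_ | ⟨i, j⟩) (_ | ⟨i', j'⟩) hne
    · exact absurd rfl hne
    · have := h1 j'
      fin_cases i'
      · right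
        show jhi hi u v η (some (0, j')) < jlo lo u v none
        rw [f0, e2]
        linarith [this.2.2]
      · left
        show jhi hi u v η none < jlo lo u v (some (1, j'))
        rw [f2, e1]
        linarith [this.1]
    · have := h1 j
      fin_cases i
      · left
        show jhi hi u v η (some (0, j)) < jlo lo u v none
        rw [f0, e2]
        linarith [this.2.2]
      · right
        show jhi hi u v η none < jlo lo u v (some (1, j))
        rw [f2, e1]
        linarith [this.1]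
    · have g1 := h1 j
      have g2 := h1 j'
      fin_cases i <;> fin_cases i'
      · have hj : j ≠ j' := fun hh => hne (by rw [hh])
        show jhi hi u v η (some (0, j)) < jlo lo u v (some (0, j')) ∨
          jhi hi u v η (some (0, j')) < jlo lo u v (some (0, j))
        rw [f0, e0, f0, e0]
        exact h2 j j' hj
      · left
        show jhi hi u v η (some (0, j)) < jlo lo u v (some (1, j'))
        rw [f0, e1]
        linarith [g1.2.2, g2.1]
      · right
        show jhi hi u v η (some (0, j')) < jlo lo u v (some (1, j))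
        rw [f0, e1]
        linarith [g2.2.2, g1.1]
      · have hj : j ≠ j' := fun hh => hne (by rw [hh])
        show jhi hi u v η (some (1, j)) < jlo lo u v (some (1, j')) ∨
          jhi hi u v η (some (1, j')) < jlo lo u v (some (1, j))
        rw [f1, e1, f1, e1]
        rcases h2 j j' hj with h | h
        · left; linarith
        · right; linarith
  · rintro (_ | ⟨i, j⟩)
    · show (0 : ℝ) ≤ 1 / 2
      norm_num
    · show 0 ≤ ω j / 2
      have := h3 j
      positivity
  · intro P hP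
    obtain ⟨A, hA⟩ : ∃ A, A = P.filter (fun y => y < η) := ⟨_, rfl⟩
    obtain ⟨B, hB⟩ : ∃ B, B = P.filter (fun y => u + v < y) := ⟨_, rfl⟩
    obtain ⟨B', hB'⟩ : ∃ B', B' = B.image (fun y => y - (u + v)) := ⟨_, rfl⟩
    have mA : ∀ y, y ∈ A ↔ y ∈ P ∧ y < η := fun y => by rw [hA, mem_filter]
    have mB : ∀ y, y ∈ B ↔ y ∈ P ∧ u + v < y := fun y => by rw [hB, mem_filter]
    have mB' : ∀ y, y ∈ B' ↔ y + (u + v) ∈ B := fun y => by
      rw [hB', mem_image]
      constructor
      · rintro ⟨z, hz, rfl⟩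
        rwa [sub_add_cancel]
      · intro hz
        exact ⟨_, hz, by ring⟩
    -- the three parts
    have hcase : ∀ y ∈ P, (y < η ∧ ∃ j, lo j ≤ y ∧ y ≤ hi j) ∨ (u ≤ y ∧ y ≤ u + η) ∨
        (u + v < y ∧ y < u + v + η ∧ ∃ j, lo j ≤ y - (u + v) ∧ y - (u + v) ≤ hi j) := by
      intro y hy
      obtain ⟨c, hc⟩ := hP y hy
      rcases c with _ | ⟨i, j⟩
      · right; left
        rw [e2, f2] at hc
        exact hc
      · fin_cases i
        · left
          change jlo lo u v (some (0, j)) ≤ y ∧ y ≤ jhi hi u v η (some (0, j)) at hc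
          rw [e0, f0] at hc
          exact ⟨hc.2.trans_lt (h1 j).2.2, j, hc⟩
        · right; right
          change jlo lo u v (some (1, j)) ≤ y ∧ y ≤ jhi hi u v η (some (1, j)) at hc
          rw [e1, f1] at hc
          refine ⟨by linarith [(h1 j).1, hc.1], by linarith [(h1 j).2.2, hc.2], j, ?_, ?_⟩
          · linarith [hc.1]
          · linarith [hc.2]
    have cA : ∀ y ∈ A, ∃ j, lo j ≤ y ∧ y ≤ hi j := by
      intro y hy
      rw [mA] at hy
      rcases hcase y hy.1 with h | h | h
      · exact h.2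
      · exfalso; linarith [h.1, hy.2]
      · exfalso; linarith [h.1, hy.2]
    have cB : ∀ y ∈ B', ∃ j, lo j ≤ y ∧ y ≤ hi j := by
      intro y hy
      rw [mB', mB] at hy
      rcases hcase _ hy.1 with h | h | h
      · exfalso; linarith [h.1, hy.2]
      · exfalso; linarith [h.2, hy.2]
      · obtain ⟨_, _, j, hj1, hj2⟩ := h
        exact ⟨j, by linarith, by linarith⟩
    rcases h4 A cA with hsA | ⟨y₁, y₂, y₃, hcon, hq⟩
    swap
    · right
      obtain ⟨k1, k2, k3, k4, k5, k6⟩ := hcon
      refine ⟨y₁, y₂, y₃, ⟨((mA _).1 k1).1, ((mA _).1 k2).1, ((mA _).1 k3).1, k4, k5, ?_⟩, hQ _ _ hq⟩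
      intro y hy
      by_cases hyη : y < η
      · exact k6 y ((mA y).2 ⟨hy, hyη⟩)
      · right; right
        have := ((mA _).1 k3).2
        linarith
    rcases h4 B' cB with hsB | ⟨y₁, y₂, y₃, hcon, hq⟩
    swap
    · right
      obtain ⟨k1, k2, k3, k4, k5, k6⟩ := hcon
      rw [mB'] at k1 k2 k3
      refine ⟨y₁ + (u + v), y₂ + (u + v), y₃ + (u + v),
        ⟨((mB _).1 k1).1, ((mB _).1 k2).1, ((mB _).1 k3).1, by linarith, by linarith, ?_⟩, ?_⟩
      · intro y hy
        by_cases hyB : u + v < y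
        · have hm : y - (u + v) ∈ B' := by
            rw [mB', sub_add_cancel, mB]
            exact ⟨hy, hyB⟩
          rcases k6 _ hm with h | h | h
          · left; linarith
          · right; left; linarith
          · right; right; linarith
        · left
          have := ((mB _).1 k1).2
          linarith
      · rw [show y₂ + (u + v) - (y₁ + (u + v)) = y₂ - y₁ by ring,
          show y₃ + (u + v) - (y₂ + (u + v)) = y₃ - y₂ by ring]
        exact hQ _ _ hq
    -- the sum
    have hsum : (∑ j, (if OneR P (jlo lo u v j) (jhi hi u v η j) then jw ω j else 0)) =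
        (if OneR P u (u + η) then 1 / 2 else 0) +
        ((∑ j, (if OneR A (lo j) (hi j) then ω j else 0)) / 2 +
          (∑ j, (if OneR B' (lo j) (hi j) then ω j else 0)) / 2) := by
      rw [Fintype.sum_option, Fintype.sum_prod_type, Fin.sum_univ_two, Finset.sum_div,
        Finset.sum_div]
      congr 1
      congr 1
      · refine Finset.sum_congr rfl fun j _ => ?_
        rw [e0, f0]
        have : OneR P (lo j) (hi j) ↔ OneR A (lo j) (hi j) := oneR_congr fun y _ hy2 => by
          rw [mA]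
          exact ⟨fun h => ⟨h, hy2.trans_lt (h1 j).2.2⟩, fun h => h.1⟩
        by_cases hA1 : OneR A (lo j) (hi j)
        · rw [if_pos hA1, if_pos (this.2 hA1)]
          rfl
        · rw [if_neg hA1, if_neg (fun h => hA1 (this.1 h))]
          norm_num
      · refine Finset.sum_congr rfl fun j _ => ?_
        rw [e1, f1]
        have : OneR P (lo j + (u + v)) (hi j + (u + v)) ↔ OneR B' (lo j) (hi j) := by
          rw [hB', oneR_shift]
          refine oneR_congr fun y hy1 _ => ?_
          rw [mB]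
          exact ⟨fun h => ⟨h, by linarith [(h1 j).1]⟩, fun h => h.1⟩
        by_cases hA1 : OneR B' (lo j) (hi j)
        · rw [if_pos hA1, if_pos (this.2 hA1)]
          rfl
        · rw [if_neg hA1, if_neg (fun h => hA1 (this.1 h))]
          norm_num
    rw [hsum]
    by_cases hall : OneR P u (u + η) ∧ A.Nonempty ∧ B'.Nonempty
    · right
      obtain ⟨⟨y, hy, hyu, huniq⟩, hAn, hBn⟩ := hall
      have hBn' : B.Nonempty := by
        obtain ⟨z, hz⟩ := hBn
        rw [mB'] at hz
        exact ⟨_, hz⟩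
      have kA := (mA _).1 (A.max'_mem hAn)
      have kB := (mB _).1 (B.min'_mem hBn')
      have k1 : 0 < A.max' hAn := by
        rcases hcase _ kA.1 with h | h | h
        · obtain ⟨_, j, hj1, _⟩ := h
          linarith [(h1 j).1]
        · linarith [h.1]
        · linarith [h.1]
      have k2 : B.min' hBn' < u + v + η := by
        rcases hcase _ kB.1 with h | h | h
        · linarith [h.1]
        · linarith [h.2]
        · exact h.2.1
      refine ⟨A.max' hAn, y, B.min' hBn', ⟨kA.1, hy, kB.1, by linarith [kA.2], by linarith [kB.2],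
        ?_⟩, hQ' _ _ ?_ ?_⟩
      · intro z hz
        rcases hcase z hz with h | h | h
        · left
          exact A.le_max' z ((mA z).2 ⟨hz, h.1⟩)
        · right; left
          exact huniq z hz h.1 h.2
        · right; right
          exact B.min'_le z ((mB z).2 ⟨hz, h.1⟩)
      · rw [abs_le]
        constructor <;> linarith [kA.2, hyu.1, hyu.2]
      · rw [abs_le]
        constructor <;> linarith [kB.2, hyu.1, hyu.2]
    · left
      by_cases hPn : P.Nonempty
      · rw [if_pos hPn]
        by_cases c1 : OneR P u (u + η)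
        · by_cases c2 : A.Nonempty
          · have c3 : ¬ B'.Nonempty := fun c3 => hall ⟨c1, c2, c3⟩
            rw [if_pos c1]
            rw [if_pos c2] at hsA
            rw [if_neg c3] at hsB
            linarith
          · rw [if_pos c1]
            rw [if_neg c2] at hsA
            have : (if B'.Nonempty then (1 : ℝ) else 0) ≤ 1 := by split_ifs <;> norm_num
            linarith
        · rw [if_neg c1]
          have g1 : (if A.Nonempty then (1 : ℝ) else 0) ≤ 1 := by split_ifs <;> norm_num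
          have g2 : (if B'.Nonempty then (1 : ℝ) else 0) ≤ 1 := by split_ifs <;> norm_num
          linarith
      · rw [if_neg hPn]
        have c1 : ¬ OneR P u (u + η) := by
          rintro ⟨y, hy, _⟩
          exact hPn ⟨y, hy⟩
        have c2 : ¬ A.Nonempty := by
          rintro ⟨y, hy⟩
          exact hPn ⟨y, ((mA y).1 hy).1⟩
        have c3 : ¬ B'.Nonempty := by
          rintro ⟨y, hy⟩
          rw [mB', mB] at hy
          exact hPn ⟨_, hy.1⟩
        rw [if_neg c1]
        rw [if_neg c2] at hsA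
        rw [if_neg c3] at hsB
        linarith

theorem sum_jw {ι : Type} [Fintype ι] (ω : ι → ℝ) : ∑ j, jw ω j = 1 / 2 + ∑ j, ω j := by
  rw [Fintype.sum_option, Fintype.sum_prod_type]
  simp only [jw, Fin.sum_univ_two]
  rw [← Finset.sum_add_distrib]
  congr 1
  refine Finset.sum_congr rfl fun j _ => ?_
  ring

/-- a larger bound, a weaker `Q` -/
theorem IsTree.mono {ι : Type} [Fintype ι] {lo hi ω : ι → ℝ} {c c' : ℝ} {Q Q' : ℝ → ℝ → Prop}
    (h : IsTree lo hi ω c Q) (hc : c ≤ c') (hQ : ∀ s w, Q s w → Q' s w) :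
    IsTree lo hi ω c' Q' := by
  obtain ⟨h1, h2, h3, h4⟩ := h
  refine ⟨fun j => ⟨(h1 j).1, (h1 j).2.1, (h1 j).2.2.trans_le hc⟩, h2, h3, fun P hP => ?_⟩
  rcases h4 P hP with h | ⟨y₁, y₂, y₃, h5, h6⟩
  · exact Or.inl h
  · exact Or.inr ⟨y₁, y₂, y₃, h5, hQ _ _ h6⟩

/-- other indices -/
theorem IsTree.reindex {ι κ : Type} [Fintype ι] [Fintype κ] (f : κ ≃ ι) {lo hi ω : ι → ℝ} {c : ℝ}
    {Q : ℝ → ℝ → Prop} (h : IsTree lo hi ω c Q) :
    IsTree (fun k => lo (f k)) (fun k => hi (f k)) (fun k => ω (f k)) c Q := by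
  classical
  obtain ⟨h1, h2, h3, h4⟩ := h
  refine ⟨fun j => h1 _, fun i j hij => h2 _ _ (fun h => hij (f.injective h)), fun j => h3 _,
    fun P hP => ?_⟩
  have h5 := h4 P (fun y hy => by
    obtain ⟨j, hj⟩ := hP y hy
    exact ⟨f j, hj⟩)
  rcases h5 with h5 | h5
  · left
    refine le_trans (le_of_eq ?_) h5
    exact Equiv.sum_comp f (fun j => if OneR P (lo j) (hi j) then ω j else 0)
  · exact Or.inr h5

/-- the empty tree -/
theorem tree_empty (c : ℝ) (Q : ℝ → ℝ → Prop) :
    IsTree (ι := Empty) (fun j => j.elim) (fun j => j.elim) (fun j => j.elim) c Q := by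
  classical
  refine ⟨fun j => j.elim, fun j => j.elim, fun j => j.elim, fun P _ => Or.inl ?_⟩
  rw [Finset.univ_eq_empty, Finset.sum_empty]
  split_ifs
  · exact zero_le_one
  · exact le_rfl

/-- the nodes of the tree of height `n` -/
def Nd : ℕ → Type
  | 0 => Empty
  | n + 1 => Option (Fin 2 × Nd n)

noncomputable instance instFintypeNd : ∀ n, Fintype (Nd n)
  | 0 => inferInstanceAs (Fintype Empty)
  | n + 1 =>
    haveI := instFintypeNd n
    inferInstanceAs (Fintype (Option (Fin 2 × Nd n)))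

/-- the weights of the tree of height `n` -/
noncomputable def wt : ∀ n, Nd n → ℝ
  | 0 => fun j => Empty.elim j
  | n + 1 => jw (wt n)

theorem sum_wt (n : ℕ) : ∑ j, wt n j = n / 2 := by
  induction n with
  | zero =>
    show ∑ j : Empty, wt 0 j = _
    rw [Finset.univ_eq_empty, Finset.sum_empty]
    norm_num
  | succ n ih =>
    show ∑ j : Option (Fin 2 × Nd n), jw (wt n) j = _
    rw [sum_jw, ih]
    push_cast
    ring

/-- trees made of bad pairs: take a bad `(a, b, ε)` with `a, b ≤ c / 8`, `η = min (ε / 4) (c / 20)`, `u = a + 2 η`,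
`v = b + 2 η`, and the tree of height `n` in `(0, η)`; then `u + v + η ≤ c / 4 + 5 c / 20 < c` -/
theorem tree_bad (Bad : ℝ → ℝ → ℝ → Prop)
    (h : ∀ c : ℝ, 0 < c → ∃ a b ε : ℝ, 0 ≤ a ∧ a ≤ c ∧ 0 ≤ b ∧ b ≤ c ∧ 0 < ε ∧ Bad a b ε)
    (n : ℕ) : ∀ c : ℝ, 0 < c → ∃ (lo hi : Nd n → ℝ) (S : Finset (ℝ × ℝ × ℝ)),
      (∀ p ∈ S, 0 ≤ p.1 ∧ 0 ≤ p.2.1 ∧ 0 < p.2.2 ∧ Bad p.1 p.2.1 p.2.2) ∧
      IsTree lo hi (wt n) c (fun s w => ∃ p ∈ S, |s - p.1| < p.2.2 ∧ |w - p.2.1| < p.2.2) := by
  classical
  induction n with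
  | zero =>
    intro c _
    exact ⟨fun j => Empty.elim j, fun j => Empty.elim j, ∅, fun p hp => absurd hp (Finset.notMem_empty p),
      tree_empty c _⟩
  | succ n ih =>
    intro c hc
    obtain ⟨a, b, ε, ha, hac, hb, hbc, hε, hbad⟩ := h (c / 8) (by positivity)
    have hη : 0 < min (ε / 4) (c / 20) := lt_min (by positivity) (by positivity)
    obtain ⟨η, hηd⟩ : ∃ η, η = min (ε / 4) (c / 20) := ⟨_, rfl⟩
    rw [← hηd] at hη
    have h1 : η ≤ ε / 4 := hηd ▸ min_le_left _ _
    have h2 : η ≤ c / 20 := hηd ▸ min_le_right _ _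
    obtain ⟨lo, hi, S, hS, htree⟩ := ih η hη
    refine ⟨jlo lo (a + 2 * η) (b + 2 * η), jhi hi (a + 2 * η) (b + 2 * η) η,
      insert (a, b, ε) S, ?_, ?_⟩
    · intro p hp
      rcases Finset.mem_insert.1 hp with rfl | hp
      · exact ⟨ha, hb, hε, hbad⟩
      · exact hS p hp
    · have h3 := join lo hi (wt n) η (a + 2 * η) (b + 2 * η) _
        (fun s w => ∃ p ∈ insert (a, b, ε) S, |s - p.1| < p.2.2 ∧ |w - p.2.1| < p.2.2)
        hη (by linarith) (by linarith) htree (by
          rintro s w ⟨p, hp, h4, h5⟩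
          exact ⟨p, Finset.mem_insert_of_mem hp, h4, h5⟩) (by
          intro s w hs hw
          refine ⟨(a, b, ε), Finset.mem_insert_self _ _, ?_, ?_⟩
          · rw [abs_le] at hs
            rw [abs_lt]
            constructor <;> dsimp only <;> linarith [hs.1, hs.2]
          · rw [abs_le] at hw
            rw [abs_lt]
            constructor <;> dsimp only <;> linarith [hw.1, hw.2])
      exact h3.mono (by linarith) (fun _ _ h => h)

/-- trees for a quotient `t` -/
theorem tree_ratio (t e : ℝ) (ht : 0 < t) (he : 0 < e) (n : ℕ) :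
    ∃ lo hi : Nd n → ℝ, IsTree lo hi (wt n) 1 (fun s w => |w / s - t| < e) := by
  obtain ⟨lo, hi, S, hS, htree⟩ := tree_bad
    (fun a b ε => ∀ s w, |s - a| < ε → |w - b| < ε → |w / s - t| < e) (by
      intro c hc
      obtain ⟨a, had⟩ : ∃ a, a = c / (1 + t) := ⟨_, rfl⟩
      have ha : 0 < a := had ▸ by positivity
      have hac : a * (1 + t) = c := by rw [had]; field_simp
      obtain ⟨ε, hεd⟩ : ∃ ε, ε = min (a / 2) (e * a / (4 * (1 + t))) := ⟨_, rfl⟩
      have hε : 0 < ε := hεd ▸ lt_min (by positivity) (by positivity)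
      have hε1 : ε ≤ a / 2 := hεd ▸ min_le_left _ _
      have hε2 : ε * (4 * (1 + t)) ≤ e * a := by
        have : ε ≤ e * a / (4 * (1 + t)) := hεd ▸ min_le_right _ _
        rwa [le_div_iff₀ (by positivity)] at this
      refine ⟨a, t * a, ε, ha.le, by nlinarith, by positivity, by nlinarith, hε, fun s w hs hw => ?_⟩
      rw [abs_lt] at hs hw
      have hs0 : 0 < s := by linarith [hs.1]
      have hsa : a / 2 < s := by linarith [hs.1]
      rw [show w / s - t = (w - t * s) / s by field_simp, abs_div, abs_of_pos hs0,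
        div_lt_iff₀ hs0]
      have h1 : |w - t * s| < ε * (1 + t) := by
        rw [abs_lt]
        constructor <;> nlinarith [hs.1, hs.2, hw.1, hw.2]
      have h2 : ε * (1 + t) ≤ e * a / 4 := by linarith
      have h3 : e * (a / 2) < e * s := mul_lt_mul_of_pos_left hsa he
      have h4 : 0 < e * a := by positivity
      linarith) n 1 one_pos
  refine ⟨lo, hi, htree.mono le_rfl ?_⟩
  rintro s w ⟨p, hp, h1, h2⟩
  exact (hS p hp).2.2.2 s w h1 h2

end Pool.Agent.H82.LS
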